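import Pool.Agent.Lib.TGA_h24.Chart
import Pool.Agent.Lib.TG_h34.Lat
import Pool.Agent.Lib.TG.A5
import Pool.Agent.Lib.TG.Reg

/-!
# TANK G, END block, row E6 (STEP 2): a toric atlas of index `1` gives a log regular model
-/

set_option autoImplicit false

open Polynomial

namespace Pool.Agent.TG

open Pool.Agent.GR (Vec InCone)
open Pool.Agent.LU2 (locV IsPar Mono le_locV locV_mono locV_le locV_inv locV_mem locV_locV)
open Pool.Agent.TG.Cnt (IsChar)
open Pool.Agent.TG.Lat (Gen Big EA exists_big RV_mul_EA)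
open Pool.Agent.TGAh24 (psi isChar_psi Good exists_good nr fg_nr chart_par)

universe u

variable {k K : Type u} [Field k] [Field K] [Algebra k K] {V : ValuationSubring K} {n : ℕ}

section Regular

variable {R : Subalgebra k K} {t : Fin n → K}

/-- A Laurent monomial which lies in the ring has exponents `≥ 0`. -/
theorem RegAt.mono_of_mem (h : RegAt V R t) (hR : ∀ a ∈ R, a ∈ V) {x : K} (hx : MonoZ V R t x)
    (hxR : x ∈ R) : Mono V R t x := by
  obtain ⟨e, u, hu, hu1, rfl⟩ := hx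
  by_cases hneg : ∀ i, 0 ≤ e i
  · exact mono_of_nonneg h.par.pos hneg hu hu1
  exfalso
  push Not at hneg
  obtain ⟨i, hi⟩ := hneg
  have hl := h.local hR
  have hb := prod_zpow_toNat h.par.ne e
  have hcoe : ∀ c : Fin n → ℕ, ((∏ i, parEl h i ^ c i : R) : K) = ∏ i, t i ^ c i := fun c => by
    rw [SubmonoidClass.coe_finsetProd]
    rfl
  have h1 : (∏ i, parEl h i ^ (e i).toNat) * (⟨u, hu⟩ : R) ∈
      Ideal.span (parEl h '' (({i} : Finset (Fin n)) : Set (Fin n))) := by
    rw [Finset.coe_singleton, Set.image_singleton, Ideal.mem_span_singleton]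
    have h2 : (∏ i, parEl h i ^ (e i).toNat) * (⟨u, hu⟩ : R) =
        (⟨_, hxR⟩ : R) * ∏ i, parEl h i ^ (-e i).toNat := by
      ext
      simp only [MulMemClass.coe_mul, hcoe]
      rw [← hb]
      ring
    rw [h2]
    exact (dvd_mono (parEl h) (fun i => (-e i).toNat) (i := i) (by omega)).mul_left _
  have h3 := peel (parEl h) {i} (fun j hj y hy => h.reg hR {i} j hj y hy)
    (fun i => (e i).toNat) (fun j hj => by
      rw [Finset.mem_singleton.1 hj]
      omega) _ h1
  rw [Finset.coe_singleton, Set.image_singleton, Ideal.mem_span_singleton] at h3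
  obtain ⟨y, hy⟩ := h3
  have h4 : V.valuation u < 1 := by
    have h5 : u = t i * y := congrArg (fun z : R => (z : K)) hy
    rw [h5, map_mul]
    exact mul_lt_one_of_lt_of_le (h.par.pos i) ((V.valuation_le_one_iff _).2 (hR _ y.2))
  rw [hu1] at h4
  exact lt_irrefl _ h4

theorem MonoZ.inv (hi : ∀ f ∈ R, V.valuation f = 1 → f⁻¹ ∈ R) {x : K} (hx : MonoZ V R t x) :
    MonoZ V R t x⁻¹ := by
  obtain ⟨e, u, hu, hu1, rfl⟩ := hx
  refine ⟨fun i => - e i, u⁻¹, hi u hu hu1, by rw [map_inv₀, hu1, inv_one], ?_⟩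
  rw [mul_inv, ← Finset.prod_inv_distrib]
  congr 1
  exact Finset.prod_congr rfl fun i _ => (zpow_neg _ _).symm

theorem MonoZ.mul_unit {x u : K} (hx : MonoZ V R t x) (hu : u ∈ R) (hu1 : V.valuation u = 1) :
    MonoZ V R t (x * u) := by
  obtain ⟨e, w, hw, hw1, rfl⟩ := hx
  exact ⟨e, w * u, R.mul_mem hw hu, by rw [map_mul, hw1, hu1, one_mul], by rw [mul_assoc]⟩

end Regular

/-- The field of fractions of the normalisation of a finite model is `K`. -/
theorem exists_frac_NV {P : Submodule k K} (hV : Ov k V) (hP : IsModel P) (hF : Fin' P) (x : K) :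
    ∃ a ∈ NV V P, ∃ b ∈ NV V P, b ≠ 0 ∧ x = a / b := by
  obtain ⟨f, hf⟩ := exists_isMin hV hP
  obtain ⟨y, hy0, hy⟩ := (hF.isAlgebraic hf.ne x).exists_integral_multiple
  have hle : ncl (ch P f) ≤ NV V P := by
    rw [NV_eq hf]
    exact le_locV _
  have hy0' : (y : K) ≠ 0 := fun h => hy0 (Subtype.ext h)
  refine ⟨y • x, hle hy, y, hle (le_ncl _ y.2), hy0', ?_⟩
  rw [Algebra.smul_def, mul_comm]
  exact (mul_div_cancel_right₀ _ hy0').symm

/-- The additive value of a character. -/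
noncomputable def wt (V : ValuationSubring K) {N : ℕ} {ψ : Vec N → K} (hψ : IsChar ψ) :
    Vec N →+ Additive (V.ValueGroup)ˣ where
  toFun b := Additive.ofMul (Units.mk0 (V.valuation (ψ b))
    ((Valuation.ne_zero_iff _).2 (hψ.ne b)))⁻¹
  map_zero' := by
    have h1 : Units.mk0 (V.valuation (ψ 0)) ((Valuation.ne_zero_iff _).2 (hψ.ne 0)) = 1 := by
      ext
      rw [Units.val_mk0, hψ.zero, map_one, Units.val_one]
    rw [h1, inv_one, ofMul_one]
  map_add' b c := by
    rw [← ofMul_mul, ← mul_inv]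
    congr 2
    ext
    rw [Units.val_mul, Units.val_mk0, Units.val_mk0, Units.val_mk0, hψ.add, map_mul]

theorem wt_nonneg_iff {N : ℕ} {ψ : Vec N → K} (hψ : IsChar ψ) (b : Vec N) :
    0 ≤ wt V hψ b ↔ ψ b ∈ V := by
  rw [← V.valuation_le_one_iff]
  change (1 : (V.ValueGroup)ˣ) ≤ (Units.mk0 (V.valuation (ψ b)) _)⁻¹ ↔ _
  rw [one_le_inv', ← Units.val_le_val, Units.val_mk0, Units.val_one]

/-- **Row E6 (STEP 2).** -/
theorem rowE6 {k : Type u} [Field k] [IsAlgClosed k] {n : ℕ}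
    {K : Type u} [Field K] [Algebra k K] (hK : (⊤ : IntermediateField k K).FG)
    (hn : Algebra.trdeg k K = n) {P : Submodule k K} (hP : IsModel P) (hF : Fin' P) {N : ℕ}
    {Q : Fin N → Submodule k K} (hQ : ∀ j, IsModel (Q j)) {a : Fin N → ℕ}
    (h : HasAtlas n P Q a 1) :
    ∃ P' : Submodule k K, IsModel P' ∧
      LogReg n P' {z | ∃ j, Q j = Submodule.span k {z} ∧ a j = 0} := by
  classical
  obtain ⟨m, C, hcov⟩ := h
  choose G hG using fun i => exists_good (C i)
  let G' : Finset (Vec N) := (Finset.univ.biUnion G) ∪ Finset.univ.image fun j => Pi.single j 1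
  obtain ⟨A, ι, _, s, e, hs, hse, hcone, hcomp, hex⟩ := Pool.Agent.GR.regular_fan.{u} N G'
  obtain ⟨c, M, hb⟩ := exists_big a A
  obtain ⟨P₁, M₁, hP₁, -, -, -, hP₁V⟩ := exists_normal_model hK hP hF
  -- the local computation
  have key : ∀ V : ValuationSubring K, ZDim k V → ∃ (i : Fin m) (l : ι),
      (∀ z ∈ (C i).F, z ∈ V) ∧ (∀ j, psi (C i) (e l j) ∈ V) ∧ IsModel (EA P Q a c M A) ∧
      RV V (P₁ * EA P Q a c M A) = locV V (nr (C i) (e l)) := by
    intro V hV
    obtain ⟨i, hi⟩ := hcov V hV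
    obtain ⟨l, hl⟩ := hex _ (wt V (isChar_psi (C i)))
    have hl' : ∀ j, psi (C i) (e l j) ∈ V := fun j => (wt_nonneg_iff _ _).1 (hl j)
    have hRN : RV V P₁ = NV V P := (hP₁V V hV.ov).2.1
    obtain ⟨h1, h2⟩ := RV_mul_EA (V := V) hV.ov hP₁ hP (fun j => (hQ j).fg)
      ((C i).min V hV hi) (by rw [hRN]; exact RV_le_NV) (isChar_psi (C i))
      (fun j => by
        obtain ⟨h3, h4⟩ := (C i).cls V hV hi j
        rw [hRN]
        exact ⟨mul_ne_zero ((isChar_psi (C i)).ne _) (pow_ne_zero _ ((C i).min V hV hi).ne),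
          h3, h4⟩)
      hb (e l) (hs l) (hse l) (hcone l) hl'
    obtain ⟨-, h4, -⟩ := chart_par hn hP (C i) ((hG i).mono (G' := (G' : Set (Vec N)))
      (fun g hg => Finset.mem_coe.2 (Finset.mem_union_left _ (Finset.mem_biUnion.2
        ⟨i, Finset.mem_univ i, Finset.mem_coe.1 hg⟩)))) hV hi hl'
      (fun g hg => hcomp l g (Finset.mem_coe.1 hg))
    exact ⟨i, l, hi, hl', h1, by rw [h2, hRN, h4]⟩
  have hmodel : IsModel (P₁ * EA P Q a c M A) := by
    obtain ⟨W, -, hW⟩ := exists_zdim_le (V := (⊤ : ValuationSubring K)) (k := k)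
      (fun _ => ValuationSubring.mem_top _)
    obtain ⟨-, -, -, -, h1, -⟩ := key W hW
    exact hP₁.mul h1
  refine ⟨_, hmodel, fun V hV => ?_⟩
  obtain ⟨i, l, hi, hl, -, hR⟩ := key V hV
  have hcG : ∀ g ∈ (G' : Set (Vec N)), InCone (e l) g ∨ InCone (e l) (-g) := fun g hg =>
    hcomp l g (Finset.mem_coe.1 hg)
  obtain ⟨h1, h2, t, ht, hm⟩ := chart_par hn hP (C i) ((hG i).mono (G' := (G' : Set (Vec N)))
    (fun g hg => Finset.mem_coe.2 (Finset.mem_union_left _ (Finset.mem_biUnion.2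
      ⟨i, Finset.mem_univ i, Finset.mem_coe.1 hg⟩)))) hV hi hl hcG
  have hNR : NV V P ≤ locV V (nr (C i) (e l)) := by
    rw [h2]
    exact le_sup_left.trans (le_locV _)
  have hreg : RegAt V (locV V (nr (C i) (e l))) t := ⟨ht, ⟨_, fg_nr (C i) (e l), rfl⟩, fun x => by
    obtain ⟨a, ha, b, hb, hb0, hx⟩ := exists_frac_NV hV.ov hP hF x
    exact ⟨a, hNR ha, b, hNR hb, hb0, hx⟩⟩
  have hRV : ∀ x ∈ locV V (nr (C i) (e l)), x ∈ V := locV_mem h1
  refine ⟨t, by rw [hR]; exact hreg, ?_⟩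
  rintro z ⟨j, hQj, haj⟩
  rw [hR]
  -- `z` is a unit times `ψ (e_j)`
  obtain ⟨h3, q, hq, hq1⟩ := (C i).cls V hV hi j
  have hψ0 := (isChar_psi (C i)).ne (Pi.single j 1)
  change (∀ q ∈ Q j, q / (psi (C i) (Pi.single j 1) * (C i).f ^ a j) ∈ NV V P) at h3
  change V.valuation (q / (psi (C i) (Pi.single j 1) * (C i).f ^ a j)) = 1 at hq1
  rw [haj, pow_zero, mul_one] at hq1
  have hz : z ∈ Q j := by
    rw [hQj]
    exact Submodule.mem_span_singleton_self z
  have hzN := h3 z hz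
  rw [haj, pow_zero, mul_one] at hzN
  have hz1 : V.valuation (z / psi (C i) (Pi.single j 1)) = 1 := by
    rw [hQj, Submodule.mem_span_singleton] at hq
    obtain ⟨b, rfl⟩ := hq
    have hb0 : b ≠ 0 := by
      rintro rfl
      rw [zero_smul, zero_div, map_zero] at hq1
      exact zero_ne_one hq1
    rw [Algebra.smul_def, mul_div_assoc, map_mul, Cnt.val_algebraMap hV.ov hb0, one_mul] at hq1
    exact hq1
  have hzu := hNR hzN
  have hz0 : z ≠ 0 := by
    rintro rfl
    rw [zero_div, map_zero] at hz1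
    exact zero_ne_one hz1
  have hzm : MonoZ V (locV V (nr (C i) (e l))) t z := by
    have := (hm.1 (Pi.single j 1)).mul_unit hzu hz1
    rwa [mul_div_cancel₀ _ hψ0] at this
  have heR : ∀ b, psi (C i) (e l b) ∈ locV V (nr (C i) (e l)) := fun b => by
    rw [h2]
    exact le_locV _ ((le_sup_right : _ ≤ NV V P ⊔ _) (Algebra.subset_adjoin ⟨b, rfl⟩))
  have hgj : (Pi.single j 1 : Vec N) ∈ (G' : Set (Vec N)) :=
    Finset.mem_coe.2 (Finset.mem_union_right _ (Finset.mem_image_of_mem _ (Finset.mem_univ j)))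
  rcases hcG _ hgj with hc | hc
  · have h4 := Lat.char_cone (isChar_psi (C i)) heR hc
    refine hreg.mono_of_mem hRV hzm ?_
    have := Subalgebra.mul_mem _ h4 hzu
    rwa [mul_div_cancel₀ _ hψ0] at this
  · have h4 := Lat.char_cone (isChar_psi (C i)) heR hc
    rw [(isChar_psi (C i)).neg] at h4
    have h5 : z⁻¹ ∈ locV V (nr (C i) (e l)) := by
      have h6 := Subalgebra.mul_mem _ h4 (hreg.inv hzu hz1)
      have e1 : (psi (C i) (Pi.single j 1))⁻¹ * (z / psi (C i) (Pi.single j 1))⁻¹ = z⁻¹ := by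
        field_simp
      rwa [e1] at h6
    have h7 := hreg.mono_of_mem hRV (hzm.inv fun f hf h => hreg.inv hf h) h5
    have h8 := Mono.inv (fun f hf h => hreg.inv hf h) h7
    rwa [inv_inv] at h8

end Pool.Agent.TG
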